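import Pool.Agent.W345.GK.Inf

/-! Basic facts on `T`, the order and the derivation. -/

set_option autoImplicit false

open Polynomial Finset

namespace Pool.Agent.W503.GK.I1

open Pool.Agent.W345.GK

section

variable {F : Type} [Field F]

/-- the Euler operator -/
noncomputable def th (f : LS F) : LS F :=
  HahnSeries.single (1 : ℤ) (1 : F) * LaurentSeries.derivative F f

theorem th_coeff (f : LS F) (n : ℤ) : (th f).coeff n = n * f.coeff n := by
  unfold th
  have h1 : ((HahnSeries.single (1 : ℤ) (1 : F)) * LaurentSeries.derivative F f).coeff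
      ((n - 1) + 1) = 1 * (LaurentSeries.derivative F f).coeff (n - 1) :=
    HahnSeries.coeff_single_mul_add
  rw [sub_add_cancel] at h1
  rw [h1, one_mul, LaurentSeries.derivative_apply, LaurentSeries.hasseDeriv_coeff]
  have h2 : n - 1 + ((1 : ℕ) : ℤ) = n := by push_cast; ring
  rw [h2, Ring.choose_one_right, zsmul_eq_mul]

theorem th_supp (f : LS F) : (th f).support ⊆ f.support := by
  intro n hn h0
  apply hn
  rw [th_coeff, h0, mul_zero]

theorem th_mul (f g : LS F) : th (f * g) = f * th g + g * th f := by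
  ext n
  rw [th_coeff, HahnSeries.coeff_add, mul_comm g (th f), HahnSeries.coeff_mul,
    HahnSeries.coeff_mul_right' g.isPWO_support (th_supp g),
    HahnSeries.coeff_mul_left' f.isPWO_support (th_supp f), mul_sum, ← sum_add_distrib]
  refine sum_congr rfl fun ij hij => ?_
  rw [th_coeff, th_coeff]
  have h1 : ij.1 + ij.2 = n := (Finset.mem_antidiagonal.1 hij).2.2
  rw [← h1]
  push_cast
  ring

theorem Dx_eq (q : ℕ) (f : LS F) : Dx q f = -(HahnSeries.single ((q : ℤ) - 1) (1 : F) * th f) := by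
  unfold Dx th
  rw [← mul_assoc, HahnSeries.single_mul_single]
  congr 3
  · congr 1
    ring
  · rw [one_mul]

theorem Dx_add (q : ℕ) (f g : LS F) : Dx q (f + g) = Dx q f + Dx q g := by
  unfold Dx
  rw [map_add]
  ring

theorem Dx_mul (q : ℕ) (f g : LS F) : Dx q (f * g) = f * Dx q g + g * Dx q f := by
  rw [Dx_eq, Dx_eq, Dx_eq, th_mul]
  ring

theorem algMap (a : F) : algebraMap F (LS F) a = HahnSeries.single (0 : ℤ) a := by
  rw [HahnSeries.algebraMap_apply']
  have h1 : algebraMap F (PowerSeries F) a = PowerSeries.C a := rfl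
  rw [h1, HahnSeries.ofPowerSeries_C]
  rfl

theorem Dx_C (q : ℕ) (a : F) : Dx q (HahnSeries.single (0 : ℤ) a) = 0 := by
  rw [Dx_eq]
  have h1 : th (HahnSeries.single (0 : ℤ) a) = 0 := by
    ext n
    rw [th_coeff, HahnSeries.coeff_single]
    by_cases hn : n = 0
    · rw [hn]; simp
    · rw [if_neg hn, mul_zero]
      rfl
  rw [h1, mul_zero, neg_zero]

theorem Dx_TT (q : ℕ) (hq : (q : F) = 0) : Dx q (TT F q) = 1 := by
  unfold Dx TT
  rw [LaurentSeries.derivative_apply, LaurentSeries.hasseDeriv_single,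
    HahnSeries.single_mul_single, ← HahnSeries.single_neg, Ring.choose_one_right, zsmul_eq_mul]
  have h1 : (q : ℤ) + (1 - (q : ℤ) - ((1 : ℕ) : ℤ)) = 0 := by push_cast; ring
  rw [h1]
  push_cast
  rw [hq]
  simp

theorem Dx_pow (q : ℕ) (hq : (q : F) = 0) (n : ℕ) :
    Dx q ((TT F q) ^ n) = (n : LS F) * (TT F q) ^ (n - 1) := by
  induction n with
  | zero =>
    rw [pow_zero, Nat.cast_zero, zero_mul]
    exact Dx_C q 1
  | succ n ih =>
    rw [pow_succ, Dx_mul, ih, Dx_TT q hq, Nat.add_sub_cancel]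
    rcases n with _ | n
    · simp
    · rw [Nat.add_sub_cancel, pow_succ]
      push_cast
      ring

theorem Dx_iF (q : ℕ) (hq : (q : F) = 0) (h : F[X]) : Dx q (iF q h) = iF q (derivative h) := by
  induction h using Polynomial.induction_on' with
  | add p r hp hr => rw [map_add, Dx_add, hp, hr, derivative_add, map_add]
  | monomial n a =>
    rw [derivative_monomial]
    unfold iF
    rw [aeval_monomial, aeval_monomial, algMap, algMap, Dx_mul, Dx_C, mul_zero, add_zero,
      Dx_pow q hq]
    have h1 : (HahnSeries.single (0 : ℤ) (a * (n : F)) : LS F) =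
        HahnSeries.single (0 : ℤ) a * (n : LS F) := by
      rw [← algMap, ← algMap, map_mul, map_natCast]
    rw [h1]
    ring

theorem iF_coeff (q : ℕ) (h : F[X]) (j : ℤ) : (iF q h).coeff j =
    ∑ i ∈ range (h.natDegree + 1), if j = i * (1 - (q : ℤ)) then h.coeff i * (-1) ^ i else 0 := by
  unfold iF TT
  rw [aeval_eq_sum_range, HahnSeries.coeff_sum]
  refine sum_congr rfl fun i _ => ?_
  rw [Algebra.smul_def, algMap, HahnSeries.coeff_single_zero_mul, HahnSeries.single_pow,
    HahnSeries.coeff_single, nsmul_eq_mul, mul_ite, mul_zero]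
  split_ifs <;> rfl

theorem iF_lt (q : ℕ) (hq : 1 < q) (h : F[X]) (j : ℤ) (hj : j < h.natDegree * (1 - (q : ℤ))) :
    (iF q h).coeff j = 0 := by
  rw [iF_coeff]
  refine sum_eq_zero fun i hi => ?_
  rw [if_neg]
  intro hji
  have h1 : (i : ℤ) ≤ h.natDegree := by
    have := mem_range.1 hi
    omega
  have h2 : (1 : ℤ) < q := by exact_mod_cast hq
  nlinarith

theorem iF_top (q : ℕ) (hq : 1 < q) (h : F[X]) : (iF q h).coeff (h.natDegree * (1 - (q : ℤ))) =
    h.leadingCoeff * (-1) ^ h.natDegree := by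
  rw [iF_coeff, sum_eq_single h.natDegree]
  · rw [if_pos rfl]
    rfl
  · intro i _ hi
    rw [if_neg]
    intro hji
    have h2 : (1 : ℤ) < q := by exact_mod_cast hq
    have h3 : ((h.natDegree : ℤ) - i) * (1 - q) = 0 := by linarith
    rcases mul_eq_zero.1 h3 with h4 | h4
    · apply hi
      omega
    · omega
  · intro h1
    exact absurd (mem_range.2 (Nat.lt_succ_self _)) h1

theorem iF_top_ne (q : ℕ) (hq : 1 < q) (h : F[X]) (h0 : h ≠ 0) :
    (iF q h).coeff (h.natDegree * (1 - (q : ℤ))) ≠ 0 := by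
  rw [iF_top q hq]
  exact mul_ne_zero (leadingCoeff_ne_zero.2 h0) (pow_ne_zero _ (neg_ne_zero.2 one_ne_zero))

theorem iF_ne (q : ℕ) (hq : 1 < q) (h : F[X]) (h0 : h ≠ 0) : iF q h ≠ 0 := by
  intro h1
  apply iF_top_ne q hq h h0
  rw [h1]
  rfl

end

theorem i1 : S_I1 := by
  intro k F _ _ _ _
  have hq : 1 < Fintype.card k := Fintype.one_lt_card
  have hq0 : ((Fintype.card k : ℕ) : F) = 0 := by
    have h1 := FiniteField.cast_card_eq_zero k
    have h2 := congrArg (algebraMap k F) h1
    rwa [map_natCast, map_zero] at h2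
  refine ⟨?_, ?_, Dx_add _, Dx_mul _, Dx_iF _ hq0, ?_⟩
  · rw [injective_iff_map_eq_zero]
    intro h h1
    by_contra h0
    exact iF_ne _ hq h h0 h1
  · intro h h0
    have e1 : -(((Fintype.card k : ℤ) - 1) * h.natDegree) =
        h.natDegree * (1 - (Fintype.card k : ℤ)) := by ring
    rw [e1]
    apply le_antisymm
    · exact HahnSeries.order_le_of_coeff_ne_zero (iF_top_ne _ hq h h0)
    · by_contra hlt
      have h1 := iF_lt _ hq h _ (not_le.1 hlt)
      exact iF_ne _ hq h h0 (HahnSeries.coeff_order_eq_zero.1 h1)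
  · intro f g hf hg
    unfold dl
    rw [Dx_mul]
    field_simp
    ring

end Pool.Agent.W503.GK.I1
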