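import Pool.Agent.W345.GK.TF

/-! Equality of the two traces. -/

set_option autoImplicit false

open Polynomial Finset

namespace Pool.Agent.W503.GK.TA8

open Pool.Agent.W345.GK

theorem tr {K V ι κ : Type} [Field K] [AddCommGroup V] [Module K V] [Fintype ι] [Fintype κ]
    [DecidableEq ι] [DecidableEq κ] (Op : V →ₗ[K] V) (a : ι → V) (b : κ → V)
    (hla : LinearIndependent K a) (hlb : LinearIndependent K b)
    (hcard : Fintype.card ι = Fintype.card κ) (A : Matrix ι ι K) (B : Matrix κ κ K)
    (P : Matrix ι κ K) (ha : ∀ s, Op (a s) = ∑ s', A s' s • a s')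
    (hb : ∀ β, Op (b β) = ∑ δ, B δ β • b δ) (hP : ∀ β, b β = ∑ s, P s β • a s) :
    A.trace = B.trace := by
  have hAP : A * P = P * B := by
    ext s' β
    have h1 : ∑ s', ((A * P) s' β) • a s' = ∑ s', ((P * B) s' β) • a s' := by
      have e1 : Op (b β) = ∑ s', ((A * P) s' β) • a s' := by
        rw [hP β, map_sum]
        simp_rw [map_smul, ha, smul_sum, smul_smul, Matrix.mul_apply, sum_smul]
        rw [sum_comm]
        refine sum_congr rfl fun s' _ => sum_congr rfl fun s _ => ?_
        rw [mul_comm]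
      have e2 : Op (b β) = ∑ s', ((P * B) s' β) • a s' := by
        rw [hb β]
        simp_rw [hP, smul_sum, smul_smul, Matrix.mul_apply, sum_smul]
        rw [sum_comm]
        refine sum_congr rfl fun s' _ => sum_congr rfl fun s _ => ?_
        rw [mul_comm]
      rw [← e1, e2]
    have h2 : ∑ s', ((A * P) s' β - (P * B) s' β) • a s' = 0 := by
      simp_rw [sub_smul]
      rw [sum_sub_distrib, h1, sub_self]
    exact sub_eq_zero.1 (Fintype.linearIndependent_iff.1 hla _ h2 s')
  obtain ⟨e⟩ : Nonempty (ι ≃ κ) := ⟨Fintype.equivOfCardEq hcard⟩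
  obtain ⟨P', hP'⟩ : ∃ P' : Matrix ι ι K, P' = P.submatrix id e := ⟨_, rfl⟩
  have hu : IsUnit P' := by
    rw [← Matrix.mulVec_injective_iff_isUnit]
    have hinj : Function.Injective (Matrix.mulVecLin P') := by
      rw [injective_iff_map_eq_zero]
      intro x hx
      have h1 : ∑ i, x i • b (e i) = 0 := by
        have e1 : ∑ i, x i • b (e i) = ∑ s, (P'.mulVec x s) • a s := by
          simp_rw [hP, smul_sum, smul_smul, Matrix.mulVec, dotProduct, sum_smul]
          rw [sum_comm]
          refine sum_congr rfl fun s _ => sum_congr rfl fun i _ => ?_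
          rw [hP', Matrix.submatrix_apply, id_eq, mul_comm]
        rw [e1]
        have e2 : P'.mulVec x = 0 := hx
        rw [e2]
        simp
      have h2 := Fintype.linearIndependent_iff.1 (hlb.comp e e.injective) x h1
      exact funext h2
    exact hinj
  have h3 : A * P' = P' * B.submatrix e e := by
    rw [hP', Matrix.submatrix_mul_equiv, ← hAP]
    ext i j
    simp [Matrix.mul_apply]
  have hdet : IsUnit P'.det := (Matrix.isUnit_iff_isUnit_det P').1 hu
  calc A.trace = (A * P' * P'⁻¹).trace := by rw [Matrix.mul_nonsing_inv_cancel_right _ _ hdet]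
    _ = (P'⁻¹ * (P' * B.submatrix e e)).trace := by rw [h3, Matrix.trace_mul_comm]
    _ = (B.submatrix e e).trace := by rw [Matrix.nonsing_inv_mul_cancel_left _ _ hdet]
    _ = B.trace := by
        unfold Matrix.trace
        exact Equiv.sum_comp e (fun j => B j j)

theorem mem_Bt {n M : ℕ} (β : Fin n →₀ ℕ) : β ∈ Bt n M ↔ (∑ i, β i) + n ≤ M + 1 := by
  unfold Bt
  rw [mem_filter, mem_biUnion]
  constructor
  · exact fun h => h.2
  · intro h
    refine ⟨⟨∑ i, β i, mem_range.2 (by omega), ?_⟩, h⟩
    rw [Finset.mem_finsuppAntidiag]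
    exact ⟨rfl, subset_univ _⟩

theorem ee_mul {L : Type} [CommRing L] {n : ℕ} (f g : MvPolynomial (Fin n) L) :
    ee (f * g) = ee f * ee g := by
  unfold ee
  rw [map_mul]
  rfl

theorem ee_sum {L : Type} [CommRing L] {n : ℕ} {κ : Type} (S : Finset κ)
    (f : κ → MvPolynomial (Fin n) L) : ee (∑ i ∈ S, f i) = ∑ i ∈ S, ee (f i) := by
  unfold ee
  rw [map_sum]
  exact AddSubmonoidClass.coe_finsetSum _ _

theorem ee_smul {L : Type} [CommRing L] {n : ℕ} (c : L) (f : MvPolynomial (Fin n) L) :
    ee (c • f) = c • ee f := by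
  unfold ee
  rw [map_smul]
  rfl

theorem ee_symm {L : Type} [CommRing L] {n : ℕ} (f : MvPolynomial (Fin n) L) :
    (ee f).IsSymmetric := by
  unfold ee
  exact (MvPolynomial.mem_symmetricSubalgebra _).1 (MvPolynomial.esymmAlgHom (Fin n) L n f).2

theorem ta8 : S_TA2 → S_TA3 → S_TA4 → S_TA5 → S_TA7 → S_TA8 := by
  classical
  intro h2 h3 h4 h5 h7 k L _ _ _ _ M n R g hR hg hdeg
  obtain ⟨q, hq⟩ : ∃ q, q = Fintype.card k := ⟨_, rfl⟩
  have h7' := h7 k L n
  rw [← hq] at hR h7' ⊢
  have hq0 : 0 < q := by rw [hq]; exact Fintype.card_pos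
  obtain ⟨u1, u2, u3, _⟩ := h2 L q hq0 n
  obtain ⟨i1, i2, i3, i4⟩ := h5 L M n
  obtain ⟨U, hU⟩ : ∃ U : MvPolynomial (Fin n) L →ₗ[L] MvPolynomial (Fin n) L,
      ∀ f, U f = UM q f :=
    ⟨{ toFun := UM q, map_add' := u2, map_smul' := u3 }, fun f => rfl⟩
  have hmain := tr (K := L) (V := MvPolynomial (Fin n) L) (ι := {s // s ∈ St n M})
    (κ := {β // β ∈ Bt n M}) (U ∘ₗ LinearMap.mulLeft L (PR n R))
    (fun s => alt (fun i => ((s : Fin n → Fin (M + 1)) i : ℕ)))
    (fun β => DD L n * ee (MvPolynomial.monomial (β : Fin n →₀ ℕ) 1)) i1 i2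
    (by rw [Fintype.card_coe, Fintype.card_coe]; exact i3)
    (fun s' s => ((AA q M R).submatrix s'.1 s.1).det)
    (fun δ β => (g * MvPolynomial.monomial β.1 1).coeff (up q δ.1))
    (fun s β => (DD L n * ee (MvPolynomial.monomial (β : Fin n →₀ ℕ) 1)).coeff
      (Finsupp.equivFunOnFinite.symm fun i => (s.1 i : ℕ)))
    (by
      intro s
      have e1 := h3 L q hq0 M n R hR s.1 s.2
      rw [LinearMap.comp_apply, LinearMap.mulLeft_apply, hU, e1]
      exact (Finset.sum_coe_sort (St n M) (fun s' => ((AA q M R).submatrix s' s.1).det •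
        (alt (fun i => (s' i : ℕ)) : MvPolynomial (Fin n) L))).symm)
    (by
      intro β
      rw [LinearMap.comp_apply, LinearMap.mulLeft_apply, hU, ← hg, mul_left_comm, ← ee_mul, h7']
      have hUM : UM q (g * MvPolynomial.monomial β.1 1) =
          ∑ δ ∈ Bt n M, (g * MvPolynomial.monomial β.1 1).coeff (up q δ) •
            (MvPolynomial.monomial δ 1 : MvPolynomial (Fin n) L) := by
        ext t
        rw [u1, MvPolynomial.coeff_sum]
        simp_rw [MvPolynomial.coeff_smul, MvPolynomial.coeff_monomial, smul_eq_mul]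
        by_cases ht : t ∈ Bt n M
        · rw [Finset.sum_eq_single t]
          · rw [if_pos rfl, mul_one]
          · intro δ _ hδ
            rw [if_neg hδ, mul_zero]
          · exact fun h => absurd ht h
        · rw [Finset.sum_eq_zero]
          · by_contra hne
            apply ht
            rw [mem_Bt]
            have hβ := (mem_Bt β.1).1 β.2
            have d1 : (g * MvPolynomial.monomial β.1 1).totalDegree ≤
                R.natDegree + ∑ i, β.1 i := by
              refine (MvPolynomial.totalDegree_mul _ _).trans (add_le_add hdeg ?_)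
              refine (MvPolynomial.totalDegree_monomial_le _ _).trans (le_of_eq ?_)
              rw [Finsupp.sum_fintype _ _ (fun _ => rfl)]
              rfl
            have d2 : ∑ i, (up q t) i ≤ (g * MvPolynomial.monomial β.1 1).totalDegree := by
              have := MvPolynomial.le_totalDegree (p := g * MvPolynomial.monomial β.1 1)
                (s := up q t) (MvPolynomial.mem_support_iff.2 hne)
              rwa [Finsupp.sum_fintype _ _ (fun _ => rfl)] at this
            have d3 : ∑ i, (up q t) i = q * (∑ i, t i) + n * (q - 1) := by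
              have : ∀ i, (up q t) i = q * t i + (q - 1) := fun i => rfl
              simp_rw [this]
              rw [sum_add_distrib, mul_sum, sum_const, card_univ, Fintype.card_fin, smul_eq_mul]
            obtain ⟨r, rfl⟩ : ∃ r, q = r + 1 := ⟨q - 1, by omega⟩
            rw [Nat.add_sub_cancel] at hR d3
            have d4 : (r + 1) * (∑ i, t i) + n * r ≤ r * (M + 1) + ∑ i, β.1 i := by omega
            have d5 : (r + 1) * ((∑ i, t i) + n) ≤ (r + 1) * (M + 1) := by nlinarith
            exact le_of_mul_le_mul_left d5 (Nat.succ_pos r)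
          · intro δ hδ
            have : δ ≠ t := fun h => ht (h ▸ hδ)
            rw [if_neg this, mul_zero]
      rw [hUM, ee_sum, mul_sum]
      simp_rw [ee_smul, mul_smul_comm]
      exact (Finset.sum_coe_sort (Bt n M) (fun δ =>
        (g * MvPolynomial.monomial β.1 1).coeff (up q δ) •
        (DD L n * ee (MvPolynomial.monomial δ 1) : MvPolynomial (Fin n) L))).symm)
    (by
      intro β
      have e1 := h4 L M n (ee (MvPolynomial.monomial β.1 1)) (ee_symm _) (i4 β.1 β.2)
      refine e1.trans ?_
      exact (Finset.sum_coe_sort (St n M) (fun s =>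
        (DD L n * ee (MvPolynomial.monomial β.1 1)).coeff
          (Finsupp.equivFunOnFinite.symm fun i => (s i : ℕ)) •
        (alt (fun i => (s i : ℕ)) : MvPolynomial (Fin n) L))).symm)
  unfold Matrix.trace at hmain
  simp only [Matrix.diag_apply] at hmain
  have l1 : ∑ s : {s // s ∈ St n M}, ((AA q M R).submatrix s.1 s.1).det =
      ∑ s ∈ St n M, ((AA q M R).submatrix s s).det :=
    Finset.sum_coe_sort (St n M) (fun s => ((AA q M R).submatrix s s).det)
  rw [← l1, hmain]
  have l2 : ∑ β : {β // β ∈ Bt n M}, (g * MvPolynomial.monomial β.1 1).coeff (up q β.1) =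
      ∑ β ∈ Bt n M, (g * MvPolynomial.monomial β 1).coeff (up q β) :=
    Finset.sum_coe_sort (Bt n M) (fun β => (g * MvPolynomial.monomial β 1).coeff (up q β))
  rw [l2]
  refine sum_congr rfl fun β _ => ?_
  have hle : β ≤ up q β := by
    intro i
    have : (up q β) i = q * β i + (q - 1) := rfl
    rw [this]
    nlinarith
  rw [MvPolynomial.coeff_mul_monomial', if_pos hle, mul_one]
  congr 1
  ext i
  have e1 : (up q β) i = q * β i + (q - 1) := rfl
  rw [Finsupp.tsub_apply, e1]
  obtain ⟨r, rfl⟩ : ∃ r, q = r + 1 := ⟨q - 1, by omega⟩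
  simp only [Nat.add_sub_cancel, Finsupp.equivFunOnFinite_symm_apply_apply]
  have : (r + 1) * β i + r = r * (β i + 1) + β i := by ring
  omega

end Pool.Agent.W503.GK.TA8
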